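import Pool.Agent.P8H73.RP.Stm

/-!
# Package FC of project RP (helper73): positions, from CORE
-/

set_option autoImplicit false

namespace Pool.Agent.P8H88.RP

open Finset Pool.Agent.P8H73.RP

/-- powers of the logarithm are smaller than powers -/
theorem log_pow_le (m : ℕ) (hm : 1 ≤ m) (ε : ℝ) (hε : 0 < ε) :
    ∃ C : ℝ, 0 < C ∧ ∀ H : ℝ, 1 ≤ H → Real.log H ^ (2 * m) ≤ C * H ^ ε := by
  have hm' : (0 : ℝ) < 2 * m := by positivity
  refine ⟨(1 / (ε / (2 * m))) ^ (2 * m), by positivity, fun H hH => ?_⟩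
  have h0 : (0 : ℝ) ≤ H := by linarith
  have h1 : Real.log H ≤ H ^ (ε / (2 * m)) / (ε / (2 * m)) :=
    Real.log_le_rpow_div h0 (by positivity)
  have h2 : 0 ≤ Real.log H := Real.log_nonneg hH
  calc Real.log H ^ (2 * m) ≤ (H ^ (ε / (2 * m)) / (ε / (2 * m))) ^ (2 * m) := by gcongr
    _ = (1 / (ε / (2 * m))) ^ (2 * m) * (H ^ (ε / (2 * m))) ^ (2 * m) := by
        rw [← mul_pow]; congr 1; ring
    _ = (1 / (ε / (2 * m))) ^ (2 * m) * H ^ ε := by
        congr 1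
        rw [← Real.rpow_natCast (H ^ (ε / (2 * m))), ← Real.rpow_mul h0]
        congr 1
        push_cast
        field_simp

/-- the size of the main term -/
theorem main_term (ε s H K : ℝ) (z : ℕ) (hε : 0 < ε) (hs : 1 ≤ s) (hH4 : 4 ≤ H) (hK : 1 ≤ K)
    (hL : Real.log 2 * (16 / (3 * ε) + 2) ≤ Real.log H) (hz : z = ⌊H ^ (s / 2)⌋₊) :
    2 ≤ z ∧ K * (H / Real.log z) + ε / 4 * (H / Real.log H) ≤ (2 / s + ε) * K * (H / Real.log H) := by
  have hlog2 : 0 < Real.log 2 := Real.log_pos (by norm_num)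
  have hlogH : 0 < Real.log H := Real.log_pos (by linarith)
  have hH0 : (0 : ℝ) < H := by linarith
  have hy2 : (2 : ℝ) ≤ H ^ (s / 2) := by
    have e1 : (2 : ℝ) = (4 : ℝ) ^ ((1 : ℝ) / 2) := by
      rw [show (4 : ℝ) = 2 ^ (2 : ℝ) by norm_num, ← Real.rpow_mul (by norm_num)]
      norm_num
    calc (2 : ℝ) = (4 : ℝ) ^ ((1 : ℝ) / 2) := e1
      _ ≤ H ^ ((1 : ℝ) / 2) := Real.rpow_le_rpow (by norm_num) hH4 (by norm_num)
      _ ≤ H ^ (s / 2) := Real.rpow_le_rpow_of_exponent_le (by linarith) (by linarith)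
  have hz2 : 2 ≤ z := by
    rw [hz]; exact Nat.le_floor (by exact_mod_cast hy2)
  refine ⟨hz2, ?_⟩
  have hzr : (2 : ℝ) ≤ z := by exact_mod_cast hz2
  have hzl : H ^ (s / 2) / 2 ≤ z := by
    have h1 : H ^ (s / 2) < z + 1 := by rw [hz]; exact Nat.lt_floor_add_one _
    linarith
  have hlz : s / 2 * Real.log H - Real.log 2 ≤ Real.log z := by
    rw [← Real.log_rpow hH0, ← Real.log_div (by positivity) (by norm_num)]
    exact Real.log_le_log (by positivity) hzl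
  have hlzpos : 0 < Real.log z := Real.log_pos (by linarith)
  have hs0 : 0 < s := by linarith
  -- the numerical inequality
  have key : Real.log H ≤ (2 / s + 3 * ε / 4) * (s / 2 * Real.log H - Real.log 2) := by
    have e : (2 / s + 3 * ε / 4) * (s / 2 * Real.log H - Real.log 2)
        = Real.log H + 3 * ε * s / 8 * Real.log H - (2 / s + 3 * ε / 4) * Real.log 2 := by
      field_simp
      ring
    rw [e]
    have h1 : (2 / s + 3 * ε / 4) * Real.log 2 ≤ (2 + 3 * ε / 4) * Real.log 2 := by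
      have : 2 / s ≤ 2 := by rw [div_le_iff₀ hs0]; linarith
      gcongr
    have h2 : (2 + 3 * ε / 4) * Real.log 2 ≤ 3 * ε / 8 * Real.log H := by
      have : 3 * ε / 8 * (Real.log 2 * (16 / (3 * ε) + 2)) = (2 + 3 * ε / 4) * Real.log 2 := by
        field_simp
        ring
      rw [← this]
      gcongr
    have h3 : 3 * ε / 8 * Real.log H ≤ 3 * ε * s / 8 * Real.log H := by
      have : 3 * ε / 8 ≤ 3 * ε * s / 8 := by nlinarith
      gcongr
    linarith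
  have key2 : H / Real.log z ≤ (2 / s + 3 * ε / 4) * (H / Real.log H) := by
    rw [div_le_iff₀ hlzpos]
    have h1 : Real.log H ≤ (2 / s + 3 * ε / 4) * Real.log z := by
      refine key.trans ?_
      gcongr
    calc H = H / Real.log H * Real.log H := by field_simp
      _ ≤ H / Real.log H * ((2 / s + 3 * ε / 4) * Real.log z) := by gcongr
      _ = _ := by ring
  have hHL : 0 ≤ H / Real.log H := by positivity
  calc K * (H / Real.log z) + ε / 4 * (H / Real.log H)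
      ≤ K * ((2 / s + 3 * ε / 4) * (H / Real.log H)) + K * (ε / 4 * (H / Real.log H)) := by
        have a1 : K * (H / Real.log z) ≤ K * ((2 / s + 3 * ε / 4) * (H / Real.log H)) := by gcongr
        have a2 : ε / 4 * (H / Real.log H) ≤ K * (ε / 4 * (H / Real.log H)) := by
          have : 0 ≤ ε / 4 * (H / Real.log H) := by positivity
          nlinarith
        linarith
    _ = (2 / s + ε) * K * (H / Real.log H) := by ring

theorem fc (hcore : S_CORE) : S_FC := by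
  classical
  intro m ε hm hε
  obtain ⟨C₁, hC₁, h₁⟩ := hcore m ε hm hε
  obtain ⟨C₂, hC₂, h₂⟩ := log_pow_le m hm (ε / 2) (by positivity)
  set L₀ : ℝ := Real.log 2 * (16 / (3 * ε) + 2) with hL₀
  set H₀ : ℝ := max 4 (Real.exp L₀) with hH₀
  have hH₀4 : 4 ≤ H₀ := le_max_left _ _
  have hH₀0 : 0 < H₀ := by linarith
  refine ⟨H₀ ^ m + 2 + C₁ * (4 / ε) ^ (2 * m) * C₂, by positivity, ?_⟩
  intro k₁ k₂ l X W H s hk₁ hk₂ hW hH hs
  set F := (range W).filter (fun M : ℕ =>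
      (2 / s + ε) * (((k₁ * k₂ : ℕ) : ℝ) / Nat.totient (k₁ * k₂)) * (H / Real.log H) ≤
        (((range H).filter (fun j : ℕ => (l + k₁ * (X + M) + k₁ * k₂ * j).Prime)).card : ℝ)) with hF
  have hFW : (F.card : ℝ) ≤ W := by
    have : F.card ≤ W := by
      calc F.card ≤ (range W).card := card_filter_le _ _
        _ = W := card_range W
    exact_mod_cast this
  have hWr : (1 : ℝ) ≤ W := by exact_mod_cast hW
  have hHr : (2 : ℝ) ≤ H := by exact_mod_cast hH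
  have hA : 1 ≤ (W : ℝ) ^ ε := Real.one_le_rpow hWr hε.le
  have hHm : 0 < (H : ℝ) ^ m := by positivity
  have hE : 0 < (H : ℝ) ^ ((m : ℝ) * (2 * s - 1)) := by positivity
  set E := (H : ℝ) ^ ((m : ℝ) * (2 * s - 1)) with hEdef
  have hB1 : (W : ℝ) / (H : ℝ) ^ m ≤ W / (H : ℝ) ^ m + E := by linarith
  have hB2 : E ≤ W / (H : ℝ) ^ m + E := by
    have : 0 ≤ (W : ℝ) / (H : ℝ) ^ m := by positivity
    linarith
  set B := (W : ℝ) / (H : ℝ) ^ m + E with hB
  have hB0 : 0 ≤ B := by positivity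
  have hAB : B ≤ (W : ℝ) ^ ε * B := by nlinarith
  set D := C₁ * (4 / ε) ^ (2 * m) * C₂ with hD
  have hD0 : 0 ≤ D := by positivity
  have hH₀m : 0 ≤ H₀ ^ m := by positivity
  have hAB0 : 0 ≤ (W : ℝ) ^ ε * B := by positivity
  rw [mul_assoc]
  by_cases hc1 : (H : ℝ) < H₀
  · calc (F.card : ℝ) ≤ W := hFW
      _ = (W : ℝ) / (H : ℝ) ^ m * (H : ℝ) ^ m := by field_simp
      _ ≤ B * H₀ ^ m := by gcongr
      _ ≤ H₀ ^ m * ((W : ℝ) ^ ε * B) := by rw [mul_comm]; gcongr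
      _ ≤ (H₀ ^ m + 2 + D) * ((W : ℝ) ^ ε * B) := by
        gcongr
        linarith
  push Not at hc1
  by_cases hc2 : (W : ℝ) < E
  · calc (F.card : ℝ) ≤ W := hFW
      _ ≤ B := by linarith
      _ ≤ 1 * ((W : ℝ) ^ ε * B) := by linarith
      _ ≤ (H₀ ^ m + 2 + D) * ((W : ℝ) ^ ε * B) := by
        gcongr
        linarith
  push Not at hc2
  have hH4 : (4 : ℝ) ≤ H := hH₀4.trans hc1
  have hLH : L₀ ≤ Real.log H := by
    have h1 : Real.exp L₀ ≤ H := (le_max_right _ _).trans hc1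
    calc L₀ = Real.log (Real.exp L₀) := (Real.log_exp _).symm
      _ ≤ Real.log H := Real.log_le_log (Real.exp_pos _) h1
  set K : ℝ := (((k₁ * k₂ : ℕ) : ℝ) / Nat.totient (k₁ * k₂)) with hK
  have hkpos : 0 < k₁ * k₂ := Nat.mul_pos hk₁ hk₂
  have hK1 : 1 ≤ K := by
    rw [hK, one_le_div (by exact_mod_cast Nat.totient_pos.2 hkpos)]
    exact_mod_cast Nat.totient_le _
  set z : ℕ := ⌊(H : ℝ) ^ (s / 2)⌋₊ with hz
  obtain ⟨hz2, hmt⟩ := main_term ε s H K z hε hs hH4 hK1 hLH hz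
  have hlogH : 0 < Real.log H := Real.log_pos (by linarith)
  have hτ : 0 < ε / 4 * (H / Real.log H) := by positivity
  have hcore' := h₁ k₁ k₂ W H z l X (ε / 4 * (H / Real.log H)) hk₁ hk₂ hz2 hτ
  set G := (range W).filter (fun M : ℕ => (((k₁ * k₂ : ℕ) : ℝ) / Nat.totient (k₁ * k₂)) * (H / Real.log z)
      + ε / 4 * (H / Real.log H) ≤ (pc ((l : ℤ) + k₁ * ((X : ℤ) + M)) (k₁ * k₂) H z : ℝ)) with hG
  have hsub : F ⊆ range (z + 1) ∪ G := by
    intro M hM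
    rw [hF, mem_filter] at hM
    rw [mem_union]
    by_cases hMz : M ≤ z
    · left; rw [mem_range]; omega
    right
    push Not at hMz
    rw [hG, mem_filter]
    refine ⟨hM.1, ?_⟩
    refine (hmt.trans hM.2).trans ?_
    rw [pc]
    norm_cast
    apply card_le_card
    intro j hj
    rw [mem_filter] at hj ⊢
    refine ⟨hj.1, ?_, ?_⟩
    · have h1 : M ≤ k₁ * (X + M) := by nlinarith
      have h2 : z < l + k₁ * (X + M) + k₁ * k₂ * j := by
        have : 0 ≤ k₁ * k₂ * j := Nat.zero_le _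
        omega
      exact_mod_cast h2
    · have e : ((l : ℤ) + k₁ * ((X : ℤ) + M) + ((k₁ * k₂ : ℕ) : ℤ) * j).toNat
          = l + k₁ * (X + M) + k₁ * k₂ * j := by
        have : (l : ℤ) + k₁ * ((X : ℤ) + M) + ((k₁ * k₂ : ℕ) : ℤ) * j
            = ((l + k₁ * (X + M) + k₁ * k₂ * j : ℕ) : ℤ) := by push_cast; ring
        rw [this, Int.toNat_natCast]
      simpa [e] using hj.2
  have hcard : (F.card : ℝ) ≤ (z + 1) + G.card := by
    have h1 : F.card ≤ (z + 1) + G.card := by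
      calc F.card ≤ (range (z + 1) ∪ G).card := card_le_card hsub
        _ ≤ (range (z + 1)).card + G.card := card_union_le _ _
        _ = (z + 1) + G.card := by rw [card_range]
    exact_mod_cast h1
  have hH1 : (1 : ℝ) ≤ H := by linarith
  have hmr : (1 : ℝ) ≤ m := by exact_mod_cast hm
  have hzH : (z : ℝ) ≤ (H : ℝ) ^ (s / 2) := Nat.floor_le (by positivity)
  have hz0 : (0 : ℝ) ≤ z := Nat.cast_nonneg z
  have hz1 : (1 : ℝ) ≤ z := by
    have : 1 ≤ z := by omega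
    exact_mod_cast this
  -- the few small positions
  have hsmall : (z : ℝ) + 1 ≤ 2 * ((W : ℝ) ^ ε * B) := by
    have h1 : (H : ℝ) ^ (s / 2) ≤ E :=
      Real.rpow_le_rpow_of_exponent_le hH1 (by nlinarith)
    linarith
  -- the moments
  have hz4 : (z : ℝ) ^ (4 * m) ≤ E * (H : ℝ) ^ m := by
    calc (z : ℝ) ^ (4 * m) ≤ ((H : ℝ) ^ (s / 2)) ^ (4 * m) := by gcongr
      _ = (H : ℝ) ^ ((s / 2) * (4 * m : ℕ)) := by
        rw [← Real.rpow_natCast, ← Real.rpow_mul (by linarith)]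
      _ = (H : ℝ) ^ ((m : ℝ) * (2 * s - 1) + m) := by
        congr 1; push_cast; ring
      _ = E * (H : ℝ) ^ m := by
        rw [Real.rpow_add (by linarith), Real.rpow_natCast]
  have hHW : (H : ℝ) ≤ W := by
    calc (H : ℝ) = (H : ℝ) ^ (1 : ℝ) := (Real.rpow_one _).symm
      _ ≤ E := Real.rpow_le_rpow_of_exponent_le hH1 (by nlinarith)
      _ ≤ W := hc2
  have hzW : (z : ℝ) ^ ε ≤ (W : ℝ) ^ (ε / 2) := by
    have h1 : (z : ℝ) ^ (2 : ℝ) ≤ W := by
      calc (z : ℝ) ^ (2 : ℝ) ≤ ((H : ℝ) ^ (s / 2)) ^ (2 : ℝ) := Real.rpow_le_rpow hz0 hzH (by norm_num)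
        _ = (H : ℝ) ^ s := by
          rw [← Real.rpow_mul (by linarith)]; congr 1; ring
        _ ≤ E := Real.rpow_le_rpow_of_exponent_le hH1 (by nlinarith)
        _ ≤ W := hc2
    calc (z : ℝ) ^ ε = ((z : ℝ) ^ (2 : ℝ)) ^ (ε / 2) := by
          rw [← Real.rpow_mul hz0]; congr 1; ring
      _ ≤ (W : ℝ) ^ (ε / 2) := Real.rpow_le_rpow (by positivity) h1 (by positivity)
  have hlogpow : Real.log H ^ (2 * m) ≤ C₂ * (W : ℝ) ^ (ε / 2) := by
    refine (h₂ H hH1).trans ?_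
    have : (H : ℝ) ^ (ε / 2) ≤ (W : ℝ) ^ (ε / 2) := Real.rpow_le_rpow (by linarith) hHW (by positivity)
    gcongr
  have hWW : (W : ℝ) ^ (ε / 2) * (W : ℝ) ^ (ε / 2) = (W : ℝ) ^ ε := by
    rw [← Real.rpow_add (by linarith)]; congr 1; ring
  have hmom : (G.card : ℝ) ≤ D * ((W : ℝ) ^ ε * B) := by
    refine hcore'.trans ?_
    have e1 : C₁ * (W + (z : ℝ) ^ (4 * m)) * ((H : ℝ) ^ m * (z : ℝ) ^ ε) / (ε / 4 * (H / Real.log H)) ^ (2 * m)
        = C₁ * (4 / ε) ^ (2 * m) * ((W + (z : ℝ) ^ (4 * m)) / (H : ℝ) ^ m) * ((z : ℝ) ^ ε * Real.log H ^ (2 * m)) := by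
      have : (ε / 4 * (H / Real.log H)) ^ (2 * m) = (H : ℝ) ^ m * (H : ℝ) ^ m / ((4 / ε) ^ (2 * m) * Real.log H ^ (2 * m)) := by
        rw [mul_pow, div_pow (H : ℝ), div_pow ε, div_pow (4 : ℝ), ← pow_add, ← two_mul]
        field_simp
      rw [this]
      field_simp
    rw [e1]
    have e2 : (W + (z : ℝ) ^ (4 * m)) / (H : ℝ) ^ m ≤ B := by
      rw [hB, add_div]
      have : (z : ℝ) ^ (4 * m) / (H : ℝ) ^ m ≤ E := by
        rw [div_le_iff₀ hHm]; exact hz4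
      linarith
    have e3 : (z : ℝ) ^ ε * Real.log H ^ (2 * m) ≤ C₂ * (W : ℝ) ^ ε := by
      calc (z : ℝ) ^ ε * Real.log H ^ (2 * m) ≤ (W : ℝ) ^ (ε / 2) * (C₂ * (W : ℝ) ^ (ε / 2)) := by gcongr
        _ = C₂ * ((W : ℝ) ^ (ε / 2) * (W : ℝ) ^ (ε / 2)) := by ring
        _ = C₂ * (W : ℝ) ^ ε := by rw [hWW]
    calc C₁ * (4 / ε) ^ (2 * m) * ((W + (z : ℝ) ^ (4 * m)) / (H : ℝ) ^ m) * ((z : ℝ) ^ ε * Real.log H ^ (2 * m))
        ≤ C₁ * (4 / ε) ^ (2 * m) * B * (C₂ * (W : ℝ) ^ ε) := by gcongr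
      _ = D * ((W : ℝ) ^ ε * B) := by rw [hD]; ring
  calc (F.card : ℝ) ≤ (z + 1) + G.card := hcard
    _ ≤ 2 * ((W : ℝ) ^ ε * B) + D * ((W : ℝ) ^ ε * B) := by linarith
    _ ≤ (H₀ ^ m + 2 + D) * ((W : ℝ) ^ ε * B) := by
      have : 0 ≤ H₀ ^ m * ((W : ℝ) ^ ε * B) := by positivity
      linarith

end Pool.Agent.P8H88.RP
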